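import Pool.Agent.Lib.MP_fa837f_gt.P2.Iface

/-!
# IN: integrability of polynomially bounded functions against `ρ`
-/

set_option autoImplicit false

open MeasureTheory Matrix Set Filter Topology

namespace Pool.Agent.Lib.MP_fa837f_gt.P2.H61

open Pool.Agent.Lib.MP_fa837f_gt.P2

/-- Polynomials against Gaussians. -/
theorem poly_le_gauss (M : ℕ) {a t : ℝ} (ha : 0 < a) (ht : 0 ≤ t) :
    (1 + t) ^ M ≤ Real.exp ((M : ℝ) ^ 2 / (4 * a)) * Real.exp (a * t ^ 2) := by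
  have h1 : 1 + t ≤ Real.exp t := by
    have := Real.add_one_le_exp t
    linarith
  calc (1 + t) ^ M ≤ Real.exp t ^ M := pow_le_pow_left₀ (by linarith) h1 M
    _ = Real.exp (M * t) := by rw [← Real.exp_nat_mul]
    _ ≤ Real.exp ((M : ℝ) ^ 2 / (4 * a) + a * t ^ 2) := by
        apply Real.exp_le_exp.mpr
        have h2 : 0 ≤ (2 * a * t - M) ^ 2 / (4 * a) := by positivity
        have h3 : (2 * a * t - M) ^ 2 / (4 * a) = a * t ^ 2 - M * t + (M : ℝ) ^ 2 / (4 * a) := by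
          field_simp
          ring
        linarith
    _ = _ := Real.exp_add _ _

theorem pb_nonneg {k : ℕ} {f : Pt k → ℝ} {C : ℝ} {N : ℕ}
    (h : ∀ y, |f y| ≤ C * (1 + ‖y‖) ^ N) : 0 ≤ C := by
  have h1 := h 0
  rw [norm_zero, add_zero, one_pow, mul_one] at h1
  exact (abs_nonneg _).trans h1

/-- IN -/
theorem in_st (hSl : SlStatement) (hSr : SrStatement) (hTs : TsStatement) : InStatement := by
  intro n k S f hf hPB
  obtain ⟨C₁, N₁, h1⟩ := hPB
  obtain ⟨C₂, N₂, h2⟩ := (hTs n k S 0).pdet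
  obtain ⟨a, ha, hcoer⟩ := (hSl n k S).coer
  have hC₁ : 0 ≤ C₁ := pb_nonneg h1
  have hC₂ : 0 ≤ C₂ := pb_nonneg h2
  have hcont : Continuous fun y => f y * S.rho y :=
    hf.mul (hSr n k S 0).srho.continuous
  set d := Module.finrank ℝ (Pt k) with hd
  set M := N₁ + N₂ + (d + 1) with hM
  set K := Real.exp ((M : ℝ) ^ 2 / (4 * a)) with hK
  have hint : Integrable (fun y : Pt k => C₁ * C₂ * K * (1 + ‖y‖) ^ (-((d : ℝ) + 1)))
      volume := by
    apply Integrable.const_mul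
    exact integrable_one_add_norm (by rw [← hd]; linarith)
  refine hint.mono' hcont.aestronglyMeasurable (Eventually.of_forall fun y => ?_)
  have hy : (0 : ℝ) < 1 + ‖y‖ := by positivity
  have hkey : (1 + ‖y‖) ^ (N₁ + N₂) * Real.exp (-(S.kap y)) ≤
      K * (1 + ‖y‖) ^ (-((d : ℝ) + 1)) := by
    have h3 : Real.exp (-(S.kap y)) ≤ Real.exp (-(a * ‖y‖ ^ 2)) :=
      Real.exp_le_exp.mpr (neg_le_neg (hcoer y))
    have h4 := poly_le_gauss M ha (norm_nonneg y)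
    have h5 : (1 + ‖y‖) ^ (-((d : ℝ) + 1)) = ((1 + ‖y‖) ^ (d + 1))⁻¹ := by
      rw [Real.rpow_neg hy.le]
      congr 1
      have : ((d : ℝ) + 1) = ((d + 1 : ℕ) : ℝ) := by push_cast; ring
      rw [this, Real.rpow_natCast]
    rw [h5, le_mul_inv_iff₀ (by positivity)]
    calc (1 + ‖y‖) ^ (N₁ + N₂) * Real.exp (-(S.kap y)) * (1 + ‖y‖) ^ (d + 1)
        ≤ (1 + ‖y‖) ^ (N₁ + N₂) * Real.exp (-(a * ‖y‖ ^ 2)) * (1 + ‖y‖) ^ (d + 1) := by
          gcongr
      _ = (1 + ‖y‖) ^ M * Real.exp (-(a * ‖y‖ ^ 2)) := by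
          rw [hM, pow_add (1 + ‖y‖) (N₁ + N₂) (d + 1)]
          ring
      _ ≤ (K * Real.exp (a * ‖y‖ ^ 2)) * Real.exp (-(a * ‖y‖ ^ 2)) := by
          apply mul_le_mul_of_nonneg_right h4 (Real.exp_pos _).le
      _ = K := by
          rw [mul_assoc, ← Real.exp_add, add_neg_cancel, Real.exp_zero, mul_one]
  calc ‖f y * S.rho y‖ = |f y| * (|(RR S.m (S.r y)).det| * Real.exp (-(S.kap y))) := by
        rw [Real.norm_eq_abs, abs_mul, Sys.rho, abs_mul, abs_of_pos (Real.exp_pos _)]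
    _ ≤ (C₁ * (1 + ‖y‖) ^ N₁) * ((C₂ * (1 + ‖y‖) ^ N₂) * Real.exp (-(S.kap y))) := by
        apply mul_le_mul (h1 y) _ (by positivity) (by positivity)
        exact mul_le_mul_of_nonneg_right (h2 y) (Real.exp_pos _).le
    _ = C₁ * C₂ * ((1 + ‖y‖) ^ (N₁ + N₂) * Real.exp (-(S.kap y))) := by
        rw [pow_add]; ring
    _ ≤ C₁ * C₂ * (K * (1 + ‖y‖) ^ (-((d : ℝ) + 1))) :=
        mul_le_mul_of_nonneg_left hkey (by positivity)
    _ = C₁ * C₂ * K * (1 + ‖y‖) ^ (-((d : ℝ) + 1)) := by ring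

end Pool.Agent.Lib.MP_fa837f_gt.P2.H61
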